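import Pool.Agent.H242.LD.Stm

set_option autoImplicit false

/-! # Project LD (helper242), task SEG (by helper539): a wide path grows until it has width `1` -/

namespace Pool.Agent.H539.LD

open Real Set Metric Filter Topology
open Pool.Agent.H242.LD Pool.Agent.H242.TM

/-- a path of width `e` and height at most `e` at the time `m` -/
def Pp (a : ℝ) (γ : ℝ → ℝ × ℝ) (s t e : ℝ) (m : ℕ) : Prop :=
  ∃ s' t' u', s ≤ s' ∧ t' ≤ t ∧ Cross (fun τ => ((F a)^[m] (γ τ)).1) s' t' u' (u' + e) ∧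
    ∀ τ ∈ Icc s' t', ∀ σ ∈ Icc s' t', |((F a)^[m] (γ τ)).2 - ((F a)^[m] (γ σ)).2| ≤ e

theorem Pp_step {a : ℝ} {γ : ℝ → ℝ × ℝ} {s t e e' D : ℝ} {m : ℕ} (hγ : Continuous γ)
    (h : Pp a γ s t e m)
    (hx : ∀ u : ℝ, ∃ x ∈ Icc u (u + e), ∃ y ∈ Icc u (u + e), D ≤ |phi a x - phi a y|)
    (he' : e ≤ e') (he0 : 0 ≤ e) (hD : e' ≤ D - e) : Pp a γ s t e' (m + 1) := by
  obtain ⟨s', t', u', hs, ht, hC, hh⟩ := h
  have hcont : Continuous (fun τ => (F a)^[m] (γ τ)) := ((F_cont a).iterate m).comp hγ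
  obtain ⟨s'', t'', u'', hs', ht', hC'⟩ := step_gen a hcont hC hh (hx u') (he0.trans he') hD
  refine ⟨s'', t'', u'', hs.trans hs', ht'.trans ht, ?_, ?_⟩
  · have e1 : (fun τ => ((F a)^[m + 1] (γ τ)).1) = fun τ => (F a ((F a)^[m] (γ τ))).1 := by
      funext τ
      rw [Function.iterate_succ_apply']
    rw [e1]
    exact hC'
  · intro τ hτ σ hσ
    rw [Function.iterate_succ_apply', Function.iterate_succ_apply']
    exact (abs_sub_le_of_mem (hC.2.2 τ ⟨hs'.trans hτ.1, hτ.2.trans ht'⟩)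
      (hC.2.2 σ ⟨hs'.trans hσ.1, hσ.2.trans ht'⟩)).trans he'

theorem ld_SEG : S_SEG := by
  intro a γ n s t u ha hγ hC hh
  have key : ∀ j : ℕ, ∃ (m : ℕ) (e : ℝ), Pp a γ s t e m ∧ e ≤ 1 ∧ 31 / 200 ≤ e ∧
      (e = 1 ∨ 31 / 200 * (11 / 10 : ℝ) ^ j ≤ e) := by
    intro j
    induction j with
    | zero => exact ⟨n, 31 / 200, ⟨s, t, u, le_rfl, le_rfl, hC, hh⟩, by norm_num, le_rfl,
        Or.inr (by norm_num)⟩
    | succ j ih =>
      obtain ⟨m, e, hP, he1, he0, hor⟩ := ih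
      by_cases h : 1 / 2 ≤ e
      · exact ⟨m + 1, 1, Pp_step hγ hP (fun u => phi_osc2 a h) he1 (by linarith) (by linarith), le_rfl,
          by norm_num, Or.inl rfl⟩
      · push Not at h
        have h1 : 31 / 200 * (11 / 10 : ℝ) ^ j ≤ e := by
          rcases hor with h2 | h2
          · linarith
          · exact h2
        have h2 : 11 / 10 * e ≤ 4 * |a| * e ^ 2 - 2 * e := by
          have h3 : 20 * e ^ 2 ≤ 4 * |a| * e ^ 2 := by
            have := mul_le_mul_of_nonneg_right ha (sq_nonneg e)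
            linarith
          have h4 : 31 / 200 * e ≤ e * e := mul_le_mul_of_nonneg_right he0 (by linarith)
          nlinarith
        have h5 : 31 / 200 * (11 / 10 : ℝ) ^ (j + 1) ≤ 4 * |a| * e ^ 2 - 2 * e := by
          rw [pow_succ]
          linarith
        rcases le_total (4 * |a| * e ^ 2 - 2 * e) 1 with h6 | h6
        · exact ⟨m + 1, _, Pp_step hγ hP (fun u => phi_osc1 a (by linarith) h.le) (by linarith)
            (by linarith) (by linarith), h6, by linarith, Or.inr h5⟩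
        · exact ⟨m + 1, 1, Pp_step hγ hP (fun u => phi_osc1 a (by linarith) h.le) he1
            (by linarith) (by linarith), le_rfl, by norm_num, Or.inl rfl⟩
  obtain ⟨m, e, hP, he1, he0, hor⟩ := key 20
  have he : e = 1 := by
    rcases hor with h | h
    · exact h
    · exfalso
      have : (1 : ℝ) < 31 / 200 * (11 / 10 : ℝ) ^ 20 := by norm_num
      linarith
  subst he
  obtain ⟨s', t', u', h1, h2, h3, h4⟩ := hP
  exact ⟨m, s', t', u', h1, h2, h3, h4⟩

end Pool.Agent.H539.LD
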